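import Mathlib
import Pool.Agent.Y699.Lat

/-!
# Project QX (helper3), CT7: the number of lattice points in a disc (helper73)
-/

set_option autoImplicit false

open Filter Topology MeasureTheory Pointwise

namespace Pool.Agent.L7h73.QX

/-- the unit disc -/
def sd : Set (Fin 2 → ℝ) := {x | x 0 ^ 2 + x 1 ^ 2 ≤ 1}

lemma sd_conv : Convex ℝ sd := by
  intro x hx y hy a b ha hb hab
  simp only [sd, Set.mem_ofPred_eq] at hx hy ⊢
  simp only [Pi.add_apply, Pi.smul_apply, smul_eq_mul]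
  have hb' : b = 1 - a := by linarith
  subst hb'
  nlinarith [mul_nonneg (mul_nonneg ha hb) (sq_nonneg (x 0 - y 0)),
    mul_nonneg (mul_nonneg ha hb) (sq_nonneg (x 1 - y 1))]

lemma sd_closed : IsClosed sd := by
  have h : Continuous fun x : Fin 2 → ℝ => x 0 ^ 2 + x 1 ^ 2 := by fun_prop
  exact isClosed_le h continuous_const

lemma sd_bdd : Bornology.IsBounded sd := by
  rw [Metric.isBounded_iff_subset_closedBall 0]
  refine ⟨1, fun x hx => ?_⟩
  rw [mem_closedBall_zero_iff, pi_norm_le_iff_of_nonneg zero_le_one]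
  simp only [sd, Set.mem_ofPred_eq] at hx
  intro i
  rw [Real.norm_eq_abs]
  fin_cases i
  · simp only [Fin.zero_eta]
    exact abs_le_of_sq_le_sq (by nlinarith [sq_nonneg (x 1)]) zero_le_one
  · simp only [Fin.mk_one]
    exact abs_le_of_sq_le_sq (by nlinarith [sq_nonneg (x 0)]) zero_le_one

lemma sd_vol : volume.real sd = Real.pi := by
  have h1 : Complex.measurableEquivPi ⁻¹' sd = Metric.closedBall 0 1 := by
    ext z
    rw [Set.mem_preimage, Metric.mem_closedBall, dist_zero_right]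
    simp only [sd, Set.mem_ofPred_eq]
    have e1 : Complex.measurableEquivPi z 0 = z.re := rfl
    have e2 : Complex.measurableEquivPi z 1 = z.im := rfl
    rw [e1, e2, ← abs_of_nonneg (norm_nonneg z), abs_le_one_iff_mul_self_le_one,
      Complex.norm_mul_self_eq_normSq, Complex.normSq_apply, sq, sq]
  have h2 := Complex.volume_preserving_equiv_pi.measure_preimage
    sd_closed.measurableSet.nullMeasurableSet
  rw [h1, Complex.volume_closedBall] at h2
  rw [Measure.real, ← h2]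
  simp

lemma sd_smul {x y : ℝ} (hx : 0 < x) (hxy : x ≤ y) : x • sd ⊆ y • sd := by
  have hy : 0 < y := hx.trans_le hxy
  intro z hz
  rw [Set.mem_smul_set_iff_inv_smul_mem₀ hx.ne'] at hz
  rw [Set.mem_smul_set_iff_inv_smul_mem₀ hy.ne']
  simp only [sd, Set.mem_ofPred_eq, Pi.smul_apply, smul_eq_mul] at hz ⊢
  rw [mul_pow, mul_pow, ← mul_add] at hz ⊢
  refine le_trans ?_ hz
  apply mul_le_mul_of_nonneg_right _ (by positivity)
  gcongr

lemma card_eq {x : ℝ} (hx : 0 < x) :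
    Nat.card ↑(sd ∩ x⁻¹ • (Submodule.span ℤ (Set.range (Pi.basisFun ℝ (Fin 2))) :
      Set (Fin 2 → ℝ))) = Nat.card {p : ℤ × ℤ // (p.1 : ℝ) ^ 2 + (p.2 : ℝ) ^ 2 ≤ x ^ 2} := by
  symm
  have hmem : ∀ v : Fin 2 → ℝ, v ∈ (Submodule.span ℤ (Set.range (Pi.basisFun ℝ (Fin 2))) :
      Set (Fin 2 → ℝ)) ↔ ∀ i, ∃ n : ℤ, (n : ℝ) = v i := by
    intro v
    rw [SetLike.mem_coe, Module.Basis.mem_span_iff_repr_mem]
    refine forall_congr' fun i => ?_
    simp
  have hin : ∀ p : ℤ × ℤ, (p.1 : ℝ) ^ 2 + (p.2 : ℝ) ^ 2 ≤ x ^ 2 →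
      x⁻¹ • (![(p.1 : ℝ), (p.2 : ℝ)] : Fin 2 → ℝ) ∈ sd := by
    intro p hp
    simp only [sd, Set.mem_ofPred_eq, Pi.smul_apply, smul_eq_mul, Matrix.cons_val_zero,
      Matrix.cons_val_one]
    rw [mul_pow, mul_pow, ← mul_add]
    calc x⁻¹ ^ 2 * ((p.1 : ℝ) ^ 2 + (p.2 : ℝ) ^ 2) ≤ x⁻¹ ^ 2 * x ^ 2 :=
          mul_le_mul_of_nonneg_left hp (by positivity)
      _ = 1 := by
          rw [← mul_pow, inv_mul_cancel₀ hx.ne', one_pow]
  refine Nat.card_congr (Equiv.ofBijective (fun p => ⟨x⁻¹ • ![(p.1.1 : ℝ), (p.1.2 : ℝ)],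
    hin p.1 p.2, ?_⟩) ⟨?_, ?_⟩)
  · refine Set.smul_mem_smul_set ?_
    rw [hmem]
    intro i
    fin_cases i
    · exact ⟨p.1.1, rfl⟩
    · exact ⟨p.1.2, rfl⟩
  · intro p q h
    have h1 := congrArg Subtype.val h
    have h2 : (![(p.1.1 : ℝ), (p.1.2 : ℝ)] : Fin 2 → ℝ) = ![(q.1.1 : ℝ), (q.1.2 : ℝ)] :=
      smul_right_injective _ (inv_ne_zero hx.ne') h1
    have h3 := congrFun h2 0
    have h4 := congrFun h2 1
    simp only [Matrix.cons_val_zero, Matrix.cons_val_one, Int.cast_inj] at h3 h4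
    exact Subtype.ext (Prod.ext h3 h4)
  · rintro ⟨v, hv1, hv2⟩
    obtain ⟨w, hw, rfl⟩ := hv2
    rw [hmem] at hw
    obtain ⟨a, ha⟩ := hw 0
    obtain ⟨b, hb⟩ := hw 1
    have hw2 : w = ![(a : ℝ), (b : ℝ)] := by
      funext i
      fin_cases i
      · exact ha.symm
      · exact hb.symm
    refine ⟨⟨(a, b), ?_⟩, ?_⟩
    · have h1 : (x⁻¹ • w) ∈ sd := hv1
      simp only [sd, Set.mem_ofPred_eq, Pi.smul_apply, smul_eq_mul, ← ha, ← hb] at h1
      rw [mul_pow, mul_pow, ← mul_add, inv_pow, inv_mul_le_iff₀ (by positivity), mul_one] at h1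
      exact h1
    · apply Subtype.ext
      simp only
      rw [hw2]

/-- **the number of lattice points in a disc** -/
theorem disc_tendsto : Tendsto (fun V : ℕ => ((Pool.Agent.Y699.Lat.disc V).card : ℝ) / V) atTop
    (𝓝 Real.pi) := by
  have h := tendsto_card_div_pow_atTop_volume' sd sd_bdd sd_closed.measurableSet
    (sd_conv.addHaar_frontier volume) (fun x y hx hxy => sd_smul hx hxy)
  rw [sd_vol] at h
  have h1 : Tendsto (fun V : ℕ => Real.sqrt V) atTop atTop :=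
    Real.tendsto_sqrt_atTop.comp tendsto_natCast_atTop_atTop
  refine (h.comp h1).congr' ?_
  filter_upwards [eventually_gt_atTop 0] with V hV
  have hV' : (0 : ℝ) < V := by exact_mod_cast hV
  simp only [Function.comp_apply]
  rw [card_eq (Real.sqrt_pos.2 hV'), Fintype.card_fin, Real.sq_sqrt hV'.le]
  congr 2
  rw [← Fintype.card_coe, ← Nat.card_eq_fintype_card]
  refine Nat.card_congr (Equiv.subtypeEquivRight fun p => ?_)
  rw [Pool.Agent.Y699.Lat.mem_disc]
  constructor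
  · intro h
    exact_mod_cast h
  · intro h
    exact_mod_cast h

end Pool.Agent.L7h73.QX
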