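import Pool.Agent.L7h3.QX.Stm2
import Pool.Agent.Y699.Sqf
import Pool.Agent.L7h73.QX.Area

/-!
# Project QX (helper3), CT7: the counting constant (helper73)
-/

set_option autoImplicit false

open Finset Filter Topology

namespace Pool.Agent.L7h73.QX

open Pool.Agent.Y699 Pool.Agent.L7h3.QX
open H385 (ZI im1 nrm)
open Pool.Agent.H304R2.EC.A1 (prim prim_norm_odd prim_ne_zero norm_def')
open Pool.Agent.W164.RC (two2 prim_iff_dvd)

/-! ### The classes modulo four -/

lemma per4 (r : ℤ) : ∑ i ∈ range 4, (if (4 : ℤ) ∣ (i : ℤ) - r then (1 : ℝ) else 0) = 1 := by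
  rw [sum_range_succ, sum_range_succ, sum_range_succ, sum_range_one]
  have h0 : ((4 : ℤ) ∣ ((0 : ℕ) : ℤ) - r) ↔ r % 4 = 0 := by omega
  have h1 : ((4 : ℤ) ∣ ((1 : ℕ) : ℤ) - r) ↔ r % 4 = 1 := by omega
  have h2 : ((4 : ℤ) ∣ ((2 : ℕ) : ℤ) - r) ↔ r % 4 = 2 := by omega
  have h3 : ((4 : ℤ) ∣ ((3 : ℕ) : ℤ) - r) ↔ r % 4 = 3 := by omega
  have : r % 4 = 0 ∨ r % 4 = 1 ∨ r % 4 = 2 ∨ r % 4 = 3 := by omega
  simp only [h0, h1, h2, h3]
  rcases this with h | h | h | h <;> rw [h] <;> norm_num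

lemma CC_card (c : ZI) (V : ℕ) : ((CC c V).card : ℝ) = ∑ p ∈ Lat.disc V,
    (if (4 : ℤ) ∣ p.1 - c.re then (1 : ℝ) else 0) * (if (4 : ℤ) ∣ p.2 - c.im then 1 else 0) := by
  classical
  have h0 : (CC c V).card = ((Lat.disc V).filter
      (fun p => (4 : ℤ) ∣ p.1 - c.re ∧ (4 : ℤ) ∣ p.2 - c.im)).card := by
    refine card_bij (fun m _ => (m.re, m.im)) ?_ ?_ ?_
    · intro m hm
      unfold CC at hm
      rw [mem_filter, mem_ZB, four_dvd_iff] at hm
      rw [mem_filter, Lat.mem_disc]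
      refine ⟨?_, hm.2⟩
      rw [← nrm_eq' m]
      exact_mod_cast hm.1
    · intro a _ b _ hab
      rw [Prod.mk.injEq] at hab
      exact Zsqrtd.ext hab.1 hab.2
    · intro p hp
      rw [mem_filter, Lat.mem_disc] at hp
      refine ⟨⟨p.1, p.2⟩, ?_, rfl⟩
      unfold CC
      rw [mem_filter, mem_ZB, four_dvd_iff]
      refine ⟨?_, hp.2⟩
      have h1 := nrm_eq' (⟨p.1, p.2⟩ : ZI)
      have h2 : (nrm (⟨p.1, p.2⟩ : ZI) : ℤ) ≤ V := by
        rw [h1]
        exact hp.1
      exact_mod_cast h2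
  rw [h0, card_filter]
  push_cast
  refine sum_congr rfl fun p _ => ?_
  by_cases h1 : (4 : ℤ) ∣ p.1 - c.re <;> by_cases h2 : (4 : ℤ) ∣ p.2 - c.im <;> simp [h1, h2]

lemma CC_err (c : ZI) (V : ℕ) : |((CC c V).card : ℝ) - ((Lat.disc V).card : ℝ) / 16| ≤
    12 * (2 * Real.sqrt V + 1) := by
  have h := Lat.disc_bound (f := fun x y => (if (4 : ℤ) ∣ x - c.re then (1 : ℝ) else 0) *
    (if (4 : ℤ) ∣ y - c.im then 1 else 0) - 1 / 16) (N := 4) (by norm_num) ?_ ?_ ?_ ?_ V
  · have e : ∑ p ∈ Lat.disc V, ((if (4 : ℤ) ∣ p.1 - c.re then (1 : ℝ) else 0) *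
        (if (4 : ℤ) ∣ p.2 - c.im then 1 else 0) - 1 / 16) =
        ((CC c V).card : ℝ) - ((Lat.disc V).card : ℝ) / 16 := by
      rw [sum_sub_distrib, ← CC_card, sum_const, nsmul_eq_mul]
      ring
    rw [e] at h
    refine h.trans (le_of_eq ?_)
    push_cast
    ring
  · intro x y
    have : (4 : ℤ) ∣ x + ((4 : ℕ) : ℤ) - c.re ↔ (4 : ℤ) ∣ x - c.re := by omega
    simp only [this]
  · intro x y
    have : (4 : ℤ) ∣ y + ((4 : ℕ) : ℤ) - c.im ↔ (4 : ℤ) ∣ y - c.im := by omega
    simp only [this]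
  · simp only [sum_sub_distrib]
    have e : ∑ i ∈ range 4, ∑ j ∈ range 4, (if (4 : ℤ) ∣ (i : ℤ) - c.re then (1 : ℝ) else 0) *
        (if (4 : ℤ) ∣ (j : ℤ) - c.im then 1 else 0) = 1 := by
      rw [← sum_mul_sum, per4, per4, one_mul]
    rw [e]
    simp
    norm_num
  · intro x y
    split_ifs <;> norm_num

/-- every class modulo four has the right number of elements -/
lemma CC_lim (c : ZI) {ε : ℝ} (hε : 0 < ε) : ∃ V1 : ℕ, ∀ V : ℕ, V1 ≤ V →
    |((CC c V).card : ℝ) - Real.pi / 16 * V| ≤ ε * V := by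
  have h := disc_tendsto
  rw [Metric.tendsto_atTop] at h
  obtain ⟨N, hN⟩ := h (8 * ε) (by positivity)
  refine ⟨max (N + 1) (⌈(72 / ε) ^ 2⌉₊ + 1), fun V hV => ?_⟩
  have hVN : N + 1 ≤ V := (le_max_left _ _).trans hV
  have hV2 : ⌈(72 / ε) ^ 2⌉₊ + 1 ≤ V := (le_max_right _ _).trans hV
  have hV0 : (0 : ℝ) < V := by
    have : 0 < V := by omega
    exact_mod_cast this
  have h1 := hN V (by omega)
  rw [Real.dist_eq, abs_lt] at h1
  have h2 := CC_err c V
  rw [abs_le] at h2 ⊢
  have h3 : (72 / ε) ^ 2 ≤ V := (Nat.le_ceil _).trans (by exact_mod_cast (Nat.le_succ _).trans hV2)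
  have h4 : 72 / ε ≤ Real.sqrt V := Real.le_sqrt_of_sq_le h3
  have h5 : Real.sqrt V * Real.sqrt V = V := Real.mul_self_sqrt hV0.le
  have h6 : 72 * Real.sqrt V ≤ ε * V := by
    rw [div_le_iff₀ hε] at h4
    calc 72 * Real.sqrt V ≤ (Real.sqrt V * ε) * Real.sqrt V :=
          mul_le_mul_of_nonneg_right h4 (Real.sqrt_nonneg _)
      _ = ε * (Real.sqrt V * Real.sqrt V) := by ring
      _ = ε * V := by rw [h5]
  have h7 : 1 ≤ Real.sqrt V := by
    rw [Real.one_le_sqrt]
    have : 1 ≤ V := by omega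
    exact_mod_cast this
  have h8 : ((Lat.disc V).card : ℝ) = ((Lat.disc V).card : ℝ) / V * V := by
    field_simp
  obtain ⟨h9, h10⟩ := h1
  set q := ((Lat.disc V).card : ℝ) / V
  have h11 : (q - Real.pi) * V ≤ 8 * ε * V := mul_le_mul_of_nonneg_right h10.le hV0.le
  have h12 : -(8 * ε) * V ≤ (q - Real.pi) * V := mul_le_mul_of_nonneg_right h9.le hV0.le
  constructor <;> nlinarith [h2.1, h2.2]

/-! ### The sum over the primes -/

/-- the small box -/
def bx (t : ZI) : Prop := t.re.natAbs ≤ 16 ∧ t.im.natAbs ≤ 16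

instance : DecidablePred bx := fun t => by unfold bx; infer_instance

/-- the squares of the coordinates -/
def sqd (a : ℕ) : ℕ := if a ≤ 16 then (16 - a) ^ 2 else (a - 16) ^ 2

/-- the candidates -/
def cand (a b : ℕ) : Bool :=
  b % 2 == 0 && (a + b) % 4 == 1 && sqd a + sqd b != 1 &&
    ((sqd a + sqd b) % 5 != 0 || sqd a + sqd b == 5)

/-- the sum, scaled -/
def bsum : ℕ := ∑ a ∈ range 33, ∑ b ∈ range 33,
  if cand a b then 10 ^ 8 / (sqd a + sqd b) ^ 2 + 1 else 0

lemma bsum_le : bsum ≤ 12070000 := by decide +kernel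

lemma prim_par {t : ZI} (ht : prim t) : t.im % 2 = 0 ∧ (t.re + t.im) % 4 = 1 := by
  obtain ⟨w, hw⟩ := (prim_iff_dvd t).1 ht
  have e1 := congrArg Zsqrtd.re hw
  have e2 := congrArg Zsqrtd.im hw
  simp [two2] at e1 e2
  omega

lemma nrm_star' (t : ZI) : nrm (star t) = nrm t := by
  have h1 := nrm_eq' (star t)
  have h2 := nrm_eq' t
  have e1 : (star t).re = t.re := rfl
  have e2 : (star t).im = -t.im := rfl
  rw [e1, e2] at h1
  have : (nrm (star t) : ℤ) = nrm t := by rw [h1, h2]; ring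
  exact_mod_cast this

lemma nrm_assoc {a b : ZI} (h : Associated a b) (ha : a ≠ 0) : nrm a = nrm b := by
  have hb : b ≠ 0 := fun hb => ha (by rw [hb] at h; exact (associated_zero_iff_eq_zero a).1 h)
  exact le_antisymm (norm_le_of_dvd hb h.dvd) (norm_le_of_dvd ha h.symm.dvd)

/-- the norm of a prime is five or prime to five -/
lemma sieve5 {t : ZI} (ht : PP t) (h5 : nrm t % 5 = 0) : nrm t = 5 := by
  set ρ : ZI := ⟨2, 1⟩ with hρ
  have hρn : nrm ρ = 5 := by decide
  have hρ0 : ρ ≠ 0 := by decide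
  have hirr : Irreducible ρ := by
    refine ⟨?_, fun a b hab => ?_⟩
    · intro hu
      have := (Zsqrtd.norm_eq_one_iff.2 hu : ρ.norm.natAbs = 1)
      have h : ρ.norm.natAbs = 5 := by decide
      omega
    · have h1 : nrm a * nrm b = 5 := by rw [← nrm_mul, ← hab, hρn]
      have h2 : nrm a = 1 ∨ nrm b = 1 := by
        have hp : Nat.Prime 5 := by norm_num
        rcases (Nat.Prime.eq_one_or_self_of_dvd hp (nrm a) ⟨_, h1.symm⟩) with h | h
        · exact Or.inl h
        · right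
          rw [h] at h1
          omega
      rcases h2 with h | h
      · exact Or.inl (Zsqrtd.norm_eq_one_iff.1 h)
      · exact Or.inr (Zsqrtd.norm_eq_one_iff.1 h)
  have hpr : Prime ρ := irreducible_iff_prime.1 hirr
  have hdvd : ρ ∣ t * star t := by
    have h1 : t * star t = ((nrm t : ℤ) : ZI) := by
      have h2 : ((nrm t : ℕ) : ℤ) = t.norm := by exact_mod_cast nrm_cast t
      rw [h2, Zsqrtd.norm_eq_mul_conj]
    obtain ⟨m, hm⟩ := Nat.dvd_of_mod_eq_zero h5
    rw [h1, hm]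
    refine ⟨star ρ * (m : ℤ), ?_⟩
    apply Zsqrtd.ext
    · simp [hρ]
      ring
    · simp [hρ]
      try ring
  have hti : Irreducible t := ht.pr.irreducible
  rcases hpr.dvd_or_dvd hdvd with h | h
  · have := nrm_assoc (hirr.associated_of_dvd hti h) hρ0
    rw [← this, hρn]
  · have h1 : star ρ ∣ t := by
      obtain ⟨w, hw⟩ := h
      refine ⟨star w, ?_⟩
      rw [← star_mul', ← hw, star_star]
    have hirr' : Irreducible (star ρ) := by
      refine ⟨fun hu => hirr.not_isUnit ?_, fun a b hab => ?_⟩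
      · have := hu.star
        rwa [star_star] at this
      · have h2 : ρ = star a * star b := by rw [← star_mul', ← hab, star_star]
        rcases hirr.isUnit_or_isUnit h2 with h3 | h3
        · left
          have := h3.star
          rwa [star_star] at this
        · right
          have := h3.star
          rwa [star_star] at this
    have hsn : star ρ ≠ 0 := by decide
    have := nrm_assoc (hirr'.associated_of_dvd hti h1) hsn
    rw [← this, nrm_star', hρn]

/-- the sum over the primes in the box -/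
lemma box_sum (S : Finset ZI) (hS : ∀ t ∈ S, PP t ∧ bx t) :
    ∑ t ∈ S, (1 : ℝ) / (nrm t : ℝ) ^ 2 ≤ 1207 / 10000 := by
  classical
  have h1 : ∑ t ∈ S, (1 : ℝ) / (nrm t : ℝ) ^ 2 ≤ ∑ q ∈ range 33 ×ˢ range 33,
      ((if cand q.1 q.2 then 10 ^ 8 / (sqd q.1 + sqd q.2) ^ 2 + 1 else 0 : ℕ) : ℝ) / 10 ^ 8 := by
    refine sum_le_inj (fun t : ZI => ((t.re + 16).toNat, (t.im + 16).toNat)) ?_ ?_ ?_
      (fun _ _ => by positivity)
    · intro t ht
      obtain ⟨-, h2, h3⟩ := hS t ht
      rw [mem_product, mem_range, mem_range]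
      constructor <;> simp only <;> omega
    · intro a ha b hb hab
      obtain ⟨-, a2, a3⟩ := hS a ha
      obtain ⟨-, b2, b3⟩ := hS b hb
      rw [Prod.mk.injEq] at hab
      refine Zsqrtd.ext ?_ ?_ <;> omega
    · intro t ht
      obtain ⟨hp, h2, h3⟩ := hS t ht
      obtain ⟨p1, p2⟩ := prim_par hp.prm
      have hn := nrm_eq' t
      have s1 : ((sqd (t.re + 16).toNat : ℕ) : ℤ) = t.re ^ 2 := by
        unfold sqd
        split_ifs with h
        · have : ((16 - (t.re + 16).toNat : ℕ) : ℤ) = -t.re := by omega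
          push_cast
          rw [this]
          ring
        · have : (((t.re + 16).toNat - 16 : ℕ) : ℤ) = t.re := by omega
          push_cast
          rw [this]
      have s2 : ((sqd (t.im + 16).toNat : ℕ) : ℤ) = t.im ^ 2 := by
        unfold sqd
        split_ifs with h
        · have : ((16 - (t.im + 16).toNat : ℕ) : ℤ) = -t.im := by omega
          push_cast
          rw [this]
          ring
        · have : (((t.im + 16).toNat - 16 : ℕ) : ℤ) = t.im := by omega
          push_cast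
          rw [this]
      have s3 : sqd (t.re + 16).toNat + sqd (t.im + 16).toNat = nrm t := by
        have : ((sqd (t.re + 16).toNat + sqd (t.im + 16).toNat : ℕ) : ℤ) = nrm t := by
          push_cast
          rw [s1, s2, hn]
        exact_mod_cast this
      have hn1 : nrm t ≠ 1 := fun h => hp.pr.not_isUnit (Zsqrtd.norm_eq_one_iff.1 h)
      have hc : cand (t.re + 16).toNat (t.im + 16).toNat = true := by
        unfold cand
        rw [s3]
        simp only [Bool.and_eq_true, Bool.or_eq_true, beq_iff_eq, bne_iff_ne, ne_eq]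
        refine ⟨⟨⟨by omega, by omega⟩, hn1⟩, ?_⟩
        by_cases h5 : nrm t % 5 = 0
        · exact Or.inr (sieve5 hp h5)
        · exact Or.inl h5
      simp only
      rw [if_pos hc, s3]
      have hpos : 0 < nrm t := nrm_pos' hp.pr.ne_zero
      have hpos' : (0 : ℝ) < nrm t := by exact_mod_cast hpos
      rw [div_le_div_iff₀ (by positivity) (by norm_num)]
      have h4 := Nat.lt_div_mul_add (a := 10 ^ 8) (b := nrm t ^ 2) (by positivity)
      have h5 : (10 : ℕ) ^ 8 ≤ (10 ^ 8 / nrm t ^ 2 + 1) * nrm t ^ 2 := by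
        rw [add_mul, one_mul]
        exact h4.le
      have h6 : ((10 : ℝ)) ^ 8 ≤ ((10 ^ 8 / nrm t ^ 2 + 1 : ℕ) : ℝ) * (nrm t : ℝ) ^ 2 := by
        exact_mod_cast h5
      rw [one_mul]
      exact h6
  refine h1.trans ?_
  rw [← sum_div, sum_product]
  have h2 : ∑ x ∈ range 33, ∑ y ∈ range 33,
      ((if cand x y then 10 ^ 8 / (sqd x + sqd y) ^ 2 + 1 else 0 : ℕ) : ℝ) = (bsum : ℝ) := by
    unfold bsum
    push_cast
    rfl
  simp only [h2]
  rw [div_le_iff₀ (by norm_num)]
  have h3 : (bsum : ℝ) ≤ 12070000 := by exact_mod_cast bsum_le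
  have h4 : (1207 / 10000 : ℝ) * 10 ^ 8 = 12070000 := by norm_num
  rw [h4]
  exact h3

lemma tel3 (n : ℕ) : ∑ j ∈ range n, ((j : ℝ) + 18) / ((j : ℝ) + 17) ^ 4 ≤
    18 / 17 * (1 / 512 - 1 / (2 * ((n : ℝ) + 16) ^ 2)) := by
  induction n with
  | zero => norm_num
  | succ n ih =>
    rw [sum_range_succ]
    have hn : (0 : ℝ) ≤ n := Nat.cast_nonneg n
    have key : ((n : ℝ) + 18) / ((n : ℝ) + 17) ^ 4 ≤
        18 / 17 * (1 / (2 * ((n : ℝ) + 16) ^ 2) - 1 / (2 * ((n : ℝ) + 17) ^ 2)) := by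
      have e : (18 : ℝ) / 17 * (1 / (2 * ((n : ℝ) + 16) ^ 2) - 1 / (2 * ((n : ℝ) + 17) ^ 2)) =
          (18 * (2 * n + 33)) / (34 * (((n : ℝ) + 16) ^ 2 * ((n : ℝ) + 17) ^ 2)) := by
        field_simp
        ring
      rw [e, div_le_div_iff₀ (by positivity) (by positivity)]
      have h1 : ((n : ℝ) + 18) * (34 * ((n : ℝ) + 16) ^ 2) ≤
          18 * (2 * n + 33) * ((n : ℝ) + 17) ^ 2 := by
        nlinarith [hn, mul_nonneg hn hn, mul_nonneg (mul_nonneg hn hn) hn]
      calc ((n : ℝ) + 18) * (34 * (((n : ℝ) + 16) ^ 2 * ((n : ℝ) + 17) ^ 2)) =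
          (((n : ℝ) + 18) * (34 * ((n : ℝ) + 16) ^ 2)) * ((n : ℝ) + 17) ^ 2 := by ring
        _ ≤ (18 * (2 * n + 33) * ((n : ℝ) + 17) ^ 2) * ((n : ℝ) + 17) ^ 2 :=
            mul_le_mul_of_nonneg_right h1 (by positivity)
        _ = 18 * (2 * n + 33) * ((n : ℝ) + 17) ^ 4 := by ring
    push_cast
    have e2 : (n : ℝ) + 1 + 16 = n + 17 := by ring
    rw [e2]
    linarith

/-- the sum outside the box -/
lemma tail_sum (S : Finset ZI) (hS : ∀ t ∈ S, prim t ∧ ¬ bx t) :
    ∑ t ∈ S, (1 : ℝ) / (nrm t : ℝ) ^ 2 ≤ 21 / 10000 := by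
  classical
  -- the size
  let mm : ZI → ℕ := fun t => max t.re.natAbs t.im.natAbs
  let ix : ZI → ℕ := fun t => 2 * ((if mm t % 2 = 1 then t.im.natAbs else t.re.natAbs) / 2) +
    (if 0 < t.im then 1 else 0)
  set M := S.sup mm with hM
  have h1 : ∑ t ∈ S, (1 : ℝ) / (nrm t : ℝ) ^ 2 ≤
      ∑ q ∈ (range (M + 1)).sigma (fun j => range (j + 18)), 1 / ((q.1 : ℝ) + 17) ^ 4 := by
    refine sum_le_inj (fun t : ZI => (⟨mm t - 17, ix t⟩ : Σ _ : ℕ, ℕ)) ?_ ?_ ?_
      (fun _ _ => by positivity)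
    · intro t ht
      obtain ⟨hp, hb⟩ := hS t ht
      obtain ⟨p1, p2⟩ := prim_par hp
      have hmM : mm t ≤ M := le_sup ht
      have hm17 : 17 ≤ mm t := by
        by_contra h
        apply hb
        have h2 : mm t ≤ 16 := by omega
        exact ⟨(le_max_left _ _).trans h2, (le_max_right _ _).trans h2⟩
      rw [mem_sigma, mem_range, mem_range]
      refine ⟨by simp only; omega, ?_⟩
      change ix t < mm t - 17 + 18
      have a1 : t.re.natAbs ≤ mm t := le_max_left _ _
      have a2 : t.im.natAbs ≤ mm t := le_max_right _ _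
      simp only [ix]
      split_ifs <;> omega
    · intro a ha b hb hab
      obtain ⟨hpa, hba⟩ := hS a ha
      obtain ⟨hpb, hbb⟩ := hS b hb
      obtain ⟨a1, a2⟩ := prim_par hpa
      obtain ⟨b1, b2⟩ := prim_par hpb
      have ha17 : 17 ≤ mm a := by
        by_contra h
        apply hba
        have h2 : mm a ≤ 16 := by omega
        exact ⟨(le_max_left _ _).trans h2, (le_max_right _ _).trans h2⟩
      have hb17 : 17 ≤ mm b := by
        by_contra h
        apply hbb
        have h2 : mm b ≤ 16 := by omega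
        exact ⟨(le_max_left _ _).trans h2, (le_max_right _ _).trans h2⟩
      have h2 : mm a - 17 = mm b - 17 := congrArg Sigma.fst hab
      have h3 : ix a = ix b := by
        have := hab
        simp only [Sigma.mk.injEq] at this
        exact eq_of_heq this.2
      have h4 : mm a = mm b := by omega
      have ma : mm a = max a.re.natAbs a.im.natAbs := rfl
      have mb : mm b = max b.re.natAbs b.im.natAbs := rfl
      simp only [ix] at h3
      rw [h4] at h3
      have key : a.im = b.im ∧ a.re = b.re := by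
        by_cases ho : mm b % 2 = 1
        · rw [if_pos ho, if_pos ho] at h3
          split_ifs at h3 <;> omega
        · rw [if_neg ho, if_neg ho] at h3
          split_ifs at h3 <;> omega
      exact Zsqrtd.ext key.2 key.1
    · intro t ht
      obtain ⟨hp, hb⟩ := hS t ht
      have hm17 : 17 ≤ mm t := by
        by_contra h
        apply hb
        have h2 : mm t ≤ 16 := by omega
        exact ⟨(le_max_left _ _).trans h2, (le_max_right _ _).trans h2⟩
      have e1 : (((mm t - 17 : ℕ) : ℝ) + 17) = (mm t : ℝ) := by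
        have : ((mm t - 17 : ℕ) : ℝ) = (mm t : ℝ) - 17 := by
          rw [Nat.cast_sub hm17]
          norm_num
        rw [this]
        ring
      simp only
      rw [e1]
      have hm0 : (0 : ℝ) < mm t := by
        have : 0 < mm t := by omega
        exact_mod_cast this
      apply one_div_le_one_div_of_le (by positivity)
      have h2 : mm t ^ 2 ≤ nrm t := by
        have h3 := nrm_eq' t
        have h4 : ((mm t ^ 2 : ℕ) : ℤ) ≤ nrm t := by
          rw [h3]
          push_cast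
          rcases max_choice t.re.natAbs t.im.natAbs with h | h
          · have e : mm t = t.re.natAbs := h
            rw [e, Int.natCast_natAbs, sq_abs]
            nlinarith [sq_nonneg t.im]
          · have e : mm t = t.im.natAbs := h
            rw [e, Int.natCast_natAbs, sq_abs]
            nlinarith [sq_nonneg t.re]
        exact_mod_cast h4
      have h5 : ((mm t : ℝ)) ^ 2 ≤ nrm t := by exact_mod_cast h2
      calc (mm t : ℝ) ^ 4 = ((mm t : ℝ) ^ 2) ^ 2 := by ring
        _ ≤ (nrm t : ℝ) ^ 2 := by gcongr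
  refine h1.trans ?_
  rw [sum_sigma]
  have h2 : ∀ j : ℕ, ∑ _x ∈ range (j + 18), (1 : ℝ) / ((j : ℝ) + 17) ^ 4 =
      ((j : ℝ) + 18) / ((j : ℝ) + 17) ^ 4 := by
    intro j
    rw [sum_const, card_range, nsmul_eq_mul]
    push_cast
    ring
  simp only [h2]
  refine (tel3 (M + 1)).trans ?_
  have h3 : (0 : ℝ) ≤ 1 / (2 * (((M + 1 : ℕ) : ℝ) + 16) ^ 2) := by positivity
  linarith

/-! ### Squarefree elements of a class -/

open Classical in
/-- squarefree elements of a class -/
noncomputable def SC (c : ZI) (X : ℕ) : Finset ZI := (CC c X).filter (fun m => Squarefree m)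

lemma odd_of_class {c m : ZI} (hc : (c.re + c.im) % 2 = 1) (h : (4 : ZI) ∣ m - c) :
    m.norm % 2 = 1 := by
  rw [four_dvd_iff] at h
  obtain ⟨h1, h2⟩ := h
  obtain ⟨k, hk⟩ : ∃ k, m.re + m.im = 2 * k + 1 := ⟨(m.re + m.im) / 2, by omega⟩
  have e1 : m.norm = (m.re + m.im) ^ 2 - 2 * (m.re * m.im) := by
    rw [norm_def']
    ring
  have e2 : (2 * k + 1) ^ 2 = 2 * (2 * (k ^ 2 + k)) + 1 := by ring
  rw [e1, hk, e2]
  omega

lemma SC_lo (c : ZI) (hc : (c.re + c.im) % 2 = 1) : ∃ X1 : ℕ, ∀ X : ℕ, X1 ≤ X →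
    (Real.pi / 16 * (1 - 1207 / 10000) - 21 / 40000 - 3 / 20000) * X ≤ ((SC c X).card : ℝ) := by
  classical
  obtain ⟨V1, hV1⟩ := CC_lim c (ε := 1 / 20000) (by norm_num)
  obtain ⟨B, hB⟩ : ∃ B : ℕ, (3420000 : ℝ) ^ 4 ≤ B := exists_nat_ge _
  obtain ⟨K, hK⟩ : ∃ K : ℕ, K = 512 := ⟨_, rfl⟩
  refine ⟨max ((V1 + 1) * (K * K)) (B + 1), fun X hX => ?_⟩
  have hXa : (V1 + 1) * (K * K) ≤ X := (le_max_left _ _).trans hX
  have hXb : B + 1 ≤ X := (le_max_right _ _).trans hX
  have hXV : V1 ≤ X := by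
    refine le_trans ?_ hXa
    refine (Nat.le_succ V1).trans (Nat.le_mul_of_pos_right _ ?_)
    rw [hK]
    norm_num
  have X0 : (0 : ℝ) ≤ X := Nat.cast_nonneg X
  have hX1 : 1 ≤ X := le_trans (Nat.le_add_left 1 B) hXb
  set s := Nat.sqrt X with hs
  set T : Finset ZI := (PB s).filter PP with hT
  have hcover : CC c X ⊆ SC c X ∪ T.biUnion (fun t => (CC c X).filter (fun m => t * t ∣ m)) := by
    intro m hm
    have hm' := hm
    unfold CC at hm'
    rw [mem_filter, mem_ZB] at hm'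
    obtain ⟨hmV, hmc⟩ := hm'
    have hodd := odd_of_class hc hmc
    have hm0 : m ≠ 0 := by
      rintro rfl
      simp at hodd
    rw [mem_union]
    by_cases hsq : Squarefree m
    · left
      exact mem_filter.2 ⟨hm, hsq⟩
    · right
      rw [Squarefree] at hsq
      push Not at hsq
      obtain ⟨x, hx, hxu⟩ := hsq
      have hx0 : x ≠ 0 := by
        rintro rfl
        rw [zero_mul, zero_dvd_iff] at hx
        exact hm0 hx
      obtain ⟨ρ, hρ, hρx⟩ := WfDvdMonoid.exists_irreducible_factor hxu hx0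
      have hρ' : Prime ρ := irreducible_iff_prime.1 hρ
      have hρm : ρ * ρ ∣ m := (mul_dvd_mul hρx hρx).trans hx
      obtain ⟨π, hπ, hass⟩ := exists_PP hρ' (odd_of_dvd ((dvd_mul_right _ _).trans hρm) hodd)
      have hπm : π * π ∣ m := (mul_dvd_mul hass.dvd hass.dvd).trans hρm
      rw [mem_biUnion]
      refine ⟨π, ?_, mem_filter.2 ⟨hm, hπm⟩⟩
      rw [hT, mem_filter, mem_PB]
      refine ⟨⟨?_, hπ.prm⟩, hπ⟩
      rw [hs, Nat.le_sqrt]
      have h1 := norm_le_of_dvd hm0 hπm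
      have h2 : nrm (π * π) ≤ nrm m := h1
      rw [nrm_mul] at h2
      exact h2.trans hmV
  have h1 : ((CC c X).card : ℝ) ≤ ((SC c X).card : ℝ) +
      ∑ t ∈ T, (((CC c X).filter (fun m => t * t ∣ m)).card : ℝ) := by
    have h2 := (card_le_card hcover).trans (card_union_le _ _)
    have h3 := h2.trans (Nat.add_le_add_left card_biUnion_le _)
    exact_mod_cast h3
  rw [← sum_filter_add_sum_filter_not T bx] at h1
  -- the box
  have hbox : ∑ t ∈ T.filter bx, (((CC c X).filter (fun m => t * t ∣ m)).card : ℝ) ≤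
      (Real.pi / 16 + 1 / 20000) * X * (1207 / 10000) := by
    have h3 : ∀ t ∈ T.filter bx, (((CC c X).filter (fun m => t * t ∣ m)).card : ℝ) ≤
        (Real.pi / 16 + 1 / 20000) * X * (1 / (nrm t : ℝ) ^ 2) := by
      intro t ht
      rw [mem_filter, hT, mem_filter, mem_PB] at ht
      obtain ⟨⟨⟨-, htp⟩, -⟩, hb1, hb2⟩ := ht
      have hn0 : 0 < nrm t := nrm_pos' (prim_ne_zero htp)
      have hn0' : (0 : ℝ) < nrm t := by exact_mod_cast hn0
      have hn : nrm t ≤ 512 := by
        have h4 := nrm_eq' t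
        have h5 : t.re ^ 2 ≤ 256 := by
          have : -16 ≤ t.re ∧ t.re ≤ 16 := by omega
          nlinarith [this.1, this.2]
        have h6 : t.im ^ 2 ≤ 256 := by
          have : -16 ≤ t.im ∧ t.im ≤ 16 := by omega
          nlinarith [this.1, this.2]
        have : (nrm t : ℤ) ≤ 512 := by rw [h4]; linarith
        exact_mod_cast this
      have h4 : (((CC c X).filter (fun m => t * t ∣ m)).card : ℝ) ≤
          ((CC c (X / (nrm t * nrm t))).card : ℝ) := by
        exact_mod_cast CC_sq htp X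
      have h5 : ((X / (nrm t * nrm t) : ℕ) : ℝ) ≤ (X : ℝ) / (nrm t : ℝ) ^ 2 := by
        have := @Nat.cast_div_le ℝ _ _ _ X (nrm t * nrm t)
        push_cast at this
        rw [sq]
        exact this
      have h6 : V1 ≤ X / (nrm t * nrm t) := by
        rw [Nat.le_div_iff_mul_le (by positivity)]
        rw [← hK] at hn
        exact (Nat.mul_le_mul (Nat.le_succ _) (Nat.mul_le_mul hn hn)).trans hXa
      have h7 := hV1 _ h6
      rw [abs_le] at h7
      have h8 : ((CC c (X / (nrm t * nrm t))).card : ℝ) ≤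
          (Real.pi / 16 + 1 / 20000) * ((X / (nrm t * nrm t) : ℕ) : ℝ) := by
        linarith [h7.2]
      refine h4.trans (h8.trans ?_)
      calc (Real.pi / 16 + 1 / 20000) * ((X / (nrm t * nrm t) : ℕ) : ℝ) ≤
          (Real.pi / 16 + 1 / 20000) * ((X : ℝ) / (nrm t : ℝ) ^ 2) :=
            mul_le_mul_of_nonneg_left h5 (by positivity)
        _ = _ := by ring
    refine (sum_le_sum h3).trans ?_
    rw [← mul_sum]
    refine mul_le_mul_of_nonneg_left ?_ (by positivity)
    refine box_sum _ fun t ht => ?_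
    rw [mem_filter, hT, mem_filter] at ht
    exact ⟨ht.1.2, ht.2⟩
  -- the other primes
  have htail : ∑ t ∈ T.filter (fun t => ¬ bx t),
      (((CC c X).filter (fun m => t * t ∣ m)).card : ℝ) ≤
      (X : ℝ) / 4 * (21 / 10000) + Real.sqrt X * (18 * lg s) + 9 * s := by
    have h3 : ∀ t ∈ T.filter (fun t => ¬ bx t),
        (((CC c X).filter (fun m => t * t ∣ m)).card : ℝ) ≤
        (X : ℝ) / 4 * (1 / (nrm t : ℝ) ^ 2) + Real.sqrt X * (1 / nrm t) + 1 := by
      intro t ht
      rw [mem_filter, hT, mem_filter, mem_PB] at ht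
      obtain ⟨⟨⟨-, htp⟩, -⟩, -⟩ := ht
      have ht0 : (0 : ℝ) < nrm t := by exact_mod_cast nrm_pos' (prim_ne_zero htp)
      have h4 : (((CC c X).filter (fun m => t * t ∣ m)).card : ℝ) ≤
          ((CC c (X / (nrm t * nrm t))).card : ℝ) := by
        exact_mod_cast CC_sq htp X
      have h5 : ((X / (nrm t * nrm t) : ℕ) : ℝ) ≤ (X : ℝ) / (nrm t : ℝ) ^ 2 := by
        have := @Nat.cast_div_le ℝ _ _ _ X (nrm t * nrm t)
        push_cast at this
        rw [sq]
        exact this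
      refine (h4.trans (CC_hi' c h5)).trans (le_of_eq ?_)
      rw [Real.sqrt_div X0, Real.sqrt_sq ht0.le]
      ring
    refine (sum_le_sum h3).trans ?_
    rw [sum_add_distrib, sum_add_distrib, ← mul_sum, ← mul_sum, sum_const, nsmul_eq_mul, mul_one]
    have hsub : T.filter (fun t => ¬ bx t) ⊆ PB s :=
      (filter_subset _ _).trans (filter_subset _ _)
    have h4 : ∑ t ∈ T.filter (fun t => ¬ bx t), (1 : ℝ) / (nrm t : ℝ) ^ 2 ≤ 21 / 10000 := by
      refine tail_sum _ fun t ht => ?_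
      rw [mem_filter, hT, mem_filter] at ht
      exact ⟨ht.1.2.prm, ht.2⟩
    have h5 : ∑ t ∈ T.filter (fun t => ¬ bx t), (1 : ℝ) / nrm t ≤ 18 * lg s :=
      (sum_le_sum_of_subset_of_nonneg hsub (fun _ _ _ => by positivity)).trans (hsum s)
    have hs1 : 1 ≤ s := by
      rw [hs, Nat.le_sqrt]
      omega
    have h6 : ((T.filter (fun t => ¬ bx t)).card : ℝ) ≤ 9 * s := by
      refine le_trans ?_ (card_PB_le hs1)
      exact_mod_cast card_le_card hsub
    have h7 := mul_le_mul_of_nonneg_left h4 (show (0 : ℝ) ≤ (X : ℝ) / 4 by positivity)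
    have h8 := mul_le_mul_of_nonneg_left h5 (Real.sqrt_nonneg X)
    linarith
  -- numerical estimates
  have hsV : (s : ℝ) ≤ Real.sqrt X := Real.nat_sqrt_le_real_sqrt
  set q : ℝ := (X : ℝ) ^ (1 / 4 : ℝ) with hq
  have hq0 : 0 ≤ q := by positivity
  have hq4 : q ^ 4 = X := by
    rw [hq, ← Real.rpow_natCast, ← Real.rpow_mul X0]
    norm_num
  have hq2 : Real.sqrt X = q ^ 2 := by
    rw [Real.sqrt_eq_iff_mul_self_eq X0 (by positivity), ← hq4]
    ring
  have hqbig : 3420000 ≤ q := by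
    by_contra h
    push Not at h
    have h4 : q ^ 4 < 3420000 ^ 4 := pow_lt_pow_left₀ h hq0 (by norm_num)
    rw [hq4] at h4
    have h5 : (B : ℝ) ≤ X := by exact_mod_cast (Nat.le_succ B).trans hXb
    linarith
  have hlg : lg s ≤ 9 * q := by
    have h4 := lg_le_rpow (show (0 : ℝ) < 1 / 4 by norm_num) X hX1
    have h5 : lg s ≤ lg X := lg_mono (Nat.sqrt_le_self X)
    refine h5.trans (h4.trans (le_of_eq ?_))
    rw [← hq]
    norm_num
  have hsmall : Real.sqrt X * (18 * lg s) + 9 * s ≤ 1 / 20000 * X := by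
    have h4 : Real.sqrt X * (18 * lg s) ≤ Real.sqrt X * (18 * (9 * q)) := by
      apply mul_le_mul_of_nonneg_left _ (Real.sqrt_nonneg _)
      linarith
    rw [hq2] at h4 hsV
    rw [hq2, ← hq4]
    have h5 : q ^ 3 * 3420000 ≤ q ^ 4 := by
      have : q ^ 4 = q ^ 3 * q := by ring
      rw [this]
      exact mul_le_mul_of_nonneg_left hqbig (by positivity)
    have h6 : q ^ 2 ≤ q ^ 3 := by
      have : q ^ 3 = q ^ 2 * q := by ring
      rw [this]
      nlinarith [sq_nonneg q]
    nlinarith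
  have h9 := hV1 X hXV
  rw [abs_le] at h9
  nlinarith [h9.1, Real.pi_pos]

/-! ### The conclusion -/

/-- the six classes -/
def cls6 : Finset ZI := {⟨0, 1⟩, ⟨0, 3⟩, ⟨2, 1⟩, ⟨2, 3⟩, ⟨1, 2⟩, ⟨3, 2⟩}

/-- all classes except zero -/
def cls15 : Finset ZI := ((range 4 ×ˢ range 4).erase (0, 0)).image
  (fun q => (⟨(q.1 : ℤ), (q.2 : ℤ)⟩ : ZI))

lemma cls6_sep : ∀ c ∈ cls6, ∀ c' ∈ cls6, c ≠ c' →
    ¬ ((4 : ℤ) ∣ c.re - c'.re ∧ (4 : ℤ) ∣ c.im - c'.im) := by decide

lemma cls6_odd : ∀ c ∈ cls6, (c.re + c.im) % 2 = 1 ∧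
    ¬ ((4 : ℤ) ∣ c.re - 1 ∧ (4 : ℤ) ∣ c.im) ∧ ¬ ((4 : ℤ) ∣ c.re + 1 ∧ (4 : ℤ) ∣ c.im) := by
  decide

lemma cls6_card : cls6.card = 6 := by decide

lemma cls15_card : cls15.card ≤ 15 := by
  unfold cls15
  refine card_image_le.trans ?_
  decide

lemma SC_ClX {c : ZI} (hc : c ∈ cls6) {X : ℕ} {m : ZI} (hm : m ∈ SC c X) : ClX m := by
  classical
  unfold SC CC at hm
  rw [mem_filter, mem_filter] at hm
  obtain ⟨⟨-, h4⟩, hsq⟩ := hm
  obtain ⟨h1, h2, h3⟩ := cls6_odd c hc
  refine ⟨hsq, odd_of_class h1 h4, ?_, ?_⟩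
  · intro h
    rw [four_dvd_iff] at h h4
    apply h2
    have e1 : (1 : ZI).re = 1 := rfl
    have e2 : (1 : ZI).im = 0 := rfl
    rw [e1, e2] at h
    omega
  · intro h
    have h' : (4 : ZI) ∣ m - (-1) := by rwa [sub_neg_eq_add]
    rw [four_dvd_iff] at h' h4
    apply h3
    have e1 : (-1 : ZI).re = -1 := rfl
    have e2 : (-1 : ZI).im = 0 := rfl
    rw [e1, e2] at h'
    omega

theorem t_CT7 : S_CT7 := by
  classical
  have hlo : ∀ c : ZI, ∃ X1 : ℕ, c ∈ cls6 → ∀ X : ℕ, X1 ≤ X →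
      (Real.pi / 16 * (1 - 1207 / 10000) - 21 / 40000 - 3 / 20000) * X ≤ ((SC c X).card : ℝ) := by
    intro c
    by_cases hc : c ∈ cls6
    · obtain ⟨X1, h⟩ := SC_lo c (cls6_odd c hc).1
      exact ⟨X1, fun _ => h⟩
    · exact ⟨0, fun h => absurd h hc⟩
  choose Xa hXa using hlo
  choose Xb hXb using fun c : ZI => CC_lim c (ε := 1 / 20000) (by norm_num)
  refine ⟨max (cls6.sup Xa) (cls15.sup Xb), fun X hX => ?_⟩
  have hX6 : ∀ c ∈ cls6, Xa c ≤ X := fun c hc =>
    (le_sup hc).trans ((le_max_left _ _).trans hX)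
  have hX15 : ∀ c ∈ cls15, Xb c ≤ X := fun c hc =>
    (le_sup hc).trans ((le_max_right _ _).trans hX)
  have X0 : (0 : ℝ) ≤ X := Nat.cast_nonneg X
  have hfin : {D : ZI | nrm D ≤ X}.Finite := by
    refine (ZB X).finite_toSet.subset fun D hD => ?_
    exact mem_coe.2 (mem_ZB.2 hD)
  -- the upper bound
  have hup : ({D : ZI | nrm D ≤ X ∧ D ≠ 0 ∧ ¬ (4 : ZI) ∣ D}.ncard : ℝ) ≤
      15 * ((Real.pi / 16 + 1 / 20000) * X) := by
    have hsub : {D : ZI | nrm D ≤ X ∧ D ≠ 0 ∧ ¬ (4 : ZI) ∣ D} ⊆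
        ((cls15.biUnion fun c => CC c X : Finset ZI) : Set ZI) := by
      rintro D ⟨h1, h2, h3⟩
      rw [mem_coe, mem_biUnion]
      have h4 : ¬ ((4 : ℤ) ∣ D.re ∧ (4 : ℤ) ∣ D.im) := by
        intro h
        apply h3
        have := (four_dvd_iff (m := D) (c := 0)).2 (by simpa using h)
        simpa using this
      refine ⟨⟨D.re % 4, D.im % 4⟩, ?_, ?_⟩
      · unfold cls15
        rw [mem_image]
        refine ⟨((D.re % 4).toNat, (D.im % 4).toNat), ?_, ?_⟩
        · rw [mem_erase, mem_product, mem_range, mem_range, Ne, Prod.mk.injEq]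
          refine ⟨?_, ?_, ?_⟩
          · intro h
            apply h4
            omega
          · simp only
            omega
          · simp only
            omega
        · apply Zsqrtd.ext
          · simp only
            omega
          · simp only
            omega
      · unfold CC
        rw [mem_filter, mem_ZB, four_dvd_iff]
        refine ⟨h1, ?_, ?_⟩
        · simp only
          omega
        · simp only
          omega
    have h1 := Set.ncard_le_ncard hsub (finite_toSet _)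
    rw [Set.ncard_coe_finset] at h1
    have h2 : ((cls15.biUnion fun c => CC c X).card : ℝ) ≤ ∑ c ∈ cls15, ((CC c X).card : ℝ) := by
      exact_mod_cast card_biUnion_le
    have h3 : ∑ c ∈ cls15, ((CC c X).card : ℝ) ≤ ∑ _c ∈ cls15, (Real.pi / 16 + 1 / 20000) * X := by
      refine sum_le_sum fun c hc => ?_
      have := hXb c X (hX15 c hc)
      rw [abs_le] at this
      linarith [this.2]
    rw [sum_const, nsmul_eq_mul] at h3
    have h4 : ((cls15.card : ℕ) : ℝ) ≤ 15 := by exact_mod_cast cls15_card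
    have h5 : (({D : ZI | nrm D ≤ X ∧ D ≠ 0 ∧ ¬ (4 : ZI) ∣ D}.ncard : ℕ) : ℝ) ≤
        ((cls15.biUnion fun c => CC c X).card : ℝ) := by exact_mod_cast h1
    refine h5.trans (h2.trans (h3.trans ?_))
    exact mul_le_mul_of_nonneg_right h4 (by have := Real.pi_pos; positivity)
  -- the lower bound
  have hlow : 6 * ((Real.pi / 16 * (1 - 1207 / 10000) - 21 / 40000 - 3 / 20000) * X) ≤
      ({D : ZI | nrm D ≤ X ∧ ClX D}.ncard : ℝ) := by
    have hsub : ((cls6.biUnion fun c => SC c X : Finset ZI) : Set ZI) ⊆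
        {D : ZI | nrm D ≤ X ∧ ClX D} := by
      intro m hm
      rw [mem_coe, mem_biUnion] at hm
      obtain ⟨c, hc, hm⟩ := hm
      refine ⟨?_, SC_ClX hc hm⟩
      unfold SC CC at hm
      exact mem_ZB.1 (mem_filter.1 (mem_filter.1 hm).1).1
    have h1 := Set.ncard_le_ncard hsub (hfin.subset fun D hD => hD.1)
    rw [Set.ncard_coe_finset, card_biUnion] at h1
    · have h2 : ∑ _c ∈ cls6, (Real.pi / 16 * (1 - 1207 / 10000) - 21 / 40000 - 3 / 20000) *
          (X : ℝ) ≤ ∑ c ∈ cls6, ((SC c X).card : ℝ) :=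
        sum_le_sum fun c hc => hXa c hc X (hX6 c hc)
      rw [sum_const, cls6_card, nsmul_eq_mul] at h2
      have h3 : ∑ c ∈ cls6, ((SC c X).card : ℝ) ≤
          ({D : ZI | nrm D ≤ X ∧ ClX D}.ncard : ℝ) := by exact_mod_cast h1
      push_cast at h2
      exact h2.trans h3
    · intro c hc c' hc' hne
      change Disjoint (SC c X) (SC c' X)
      rw [Finset.disjoint_left]
      intro m hm hm'
      unfold SC CC at hm hm'
      rw [mem_filter, mem_filter, four_dvd_iff] at hm hm'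
      apply cls6_sep c (mem_coe.1 hc) c' (mem_coe.1 hc') hne
      obtain ⟨⟨-, a1, a2⟩, -⟩ := hm
      obtain ⟨⟨-, b1, b2⟩, -⟩ := hm'
      constructor <;> omega
  have hpi := Real.pi_gt_three
  nlinarith

end Pool.Agent.L7h73.QX
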