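import Pool.Agent.L7h3.QX.Stm

/-!
# Project QX (helper3), DIX: the limit of the division sum (helper73)
-/

set_option autoImplicit false
set_option linter.unusedVariables false
set_option linter.unusedSectionVars false

open Filter Complex
open scoped Topology PeriodPair

namespace Pool.Agent.L7h73.QX

open Pool.Agent.Y699 Pool.Agent.L7h3.QX
open Pool.Agent.TH936.CM
open H385 (ZI RQ im1 nrm)
open Pool.Agent.H304R3.HK (tc)
open Pool.Agent.H304R2.EC.A1 (prim prim_ne_zero)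

variable {L : PeriodPair} {Ω : ℂ}

/-- multiplication by the unit -/
lemma sum_unitG (h : GLat L Ω) {D : ZI} (hD : prim D) [Fintype (RQ D)] {F : ZI → ℂ} {κ : ℂ}
    (hper : ∀ a b, D ∣ a - b → F a = F b) (hi : ∀ a, F (im1 * a) = κ * F a) (G : ℂ → ℂ)
    (hG : ∀ x y : ℂ, x - y ∈ L.lattice → G x = G y) :
    ∑ q : RQ D, F q.out * G (zq Ω D q.out) = κ * ∑ q : RQ D, F q.out * G (I * zq Ω D q.out) := by
  have hD0 : D ≠ 0 := prim_ne_zero hD
  rw [← sum_unit_mul (im1_isUnit D), Finset.mul_sum]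
  refine Finset.sum_congr rfl fun q _ => ?_
  have e1 : F (Ideal.Quotient.mk (Ideal.span {D}) im1 * q).out = κ * F q.out := by
    rw [hper _ _ (out_mul D im1 q), hi]
  have e2 : G (zq Ω D (Ideal.Quotient.mk (Ideal.span {D}) im1 * q).out) =
      G (I * zq Ω D q.out) := by
    apply hG
    have h1 := zq_sub h.lat hD0 (out_mul D im1 q)
    rw [zq_mul, tc_im1] at h1
    exact h1
  rw [e1, e2]
  ring

lemma FE_per (h : GLat L Ω) (δ : ℝ) {x y : ℂ} (hxy : x - y ∈ L.lattice) :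
    FE Ω δ x = FE Ω δ y := by
  unfold FE
  have e : ∀ t : ℂ, EG Ω δ (x + t) = EG Ω δ (y + t) := by
    intro t
    apply EG_per h.lat
    rwa [add_sub_add_right_eq_sub]
  have e0 : EG Ω δ x = EG Ω δ y := EG_per h.lat δ hxy
  rw [e0, e, e, e]

lemma GE_per (h : GLat L Ω) (k : ℕ) (δ : ℝ) {x y : ℂ} (hxy : x - y ∈ L.lattice) :
    GE Ω k δ x = GE Ω k δ y := by
  unfold GE
  have e : ∀ t : ℂ, FE Ω δ (t + x) = FE Ω δ (t + y) := by
    intro t
    apply FE_per h
    rwa [add_sub_add_left_eq_sub]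
  rw [e, e]

theorem t_DIX : S_DIX := by
  intro L Ω h w k c κ ε hK D hD _ F hper hi hz
  have hmulI : ∀ G : ℂ → ℂ, (∀ x y : ℂ, x - y ∈ L.lattice → G x = G y) →
      ∀ x y : ℂ, x - y ∈ L.lattice → G (I * x) = G (I * y) := by
    intro G hG x y hxy
    apply hG
    rw [← mul_sub]
    exact lat_I h.lat hxy
  have havg : ∀ G : ℂ → ℂ, (∀ x y : ℂ, x - y ∈ L.lattice → G x = G y) →
      ∑ q : RQ D, F q.out * G (zq Ω D q.out) =
      ∑ q : RQ D, F q.out * (1 / 4 * (G (zq Ω D q.out) + I ^ w * G (I * zq Ω D q.out) +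
        I ^ (2 * w) * G (-zq Ω D q.out) + I ^ (3 * w) * G (-(I * zq Ω D q.out)))) := by
    intro G hG
    have k1 := sum_unitG h hD hper hi G hG
    have k2 := sum_unitG h hD hper hi (fun z => G (I * z)) (hmulI G hG)
    have k3 := sum_unitG h hD hper hi (fun z => G (I * (I * z)))
      (hmulI (fun z => G (I * z)) (hmulI G hG))
    have e2 : ∀ z : ℂ, I * (I * z) = -z := fun z => by linear_combination z * I_sq
    have e4 : ∀ z : ℂ, I * -z = -(I * z) := fun z => by ring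
    simp only [e2, e4] at k1 k2 k3
    set S0 := ∑ q : RQ D, F q.out * G (zq Ω D q.out) with hS0
    set S1 := ∑ q : RQ D, F q.out * G (I * zq Ω D q.out) with hS1
    set S2 := ∑ q : RQ D, F q.out * G (-zq Ω D q.out) with hS2
    set S3 := ∑ q : RQ D, F q.out * G (-(I * zq Ω D q.out)) with hS3
    have e5 : ∑ q : RQ D, F q.out * (1 / 4 * (G (zq Ω D q.out) + I ^ w * G (I * zq Ω D q.out) +
        I ^ (2 * w) * G (-zq Ω D q.out) + I ^ (3 * w) * G (-(I * zq Ω D q.out)))) =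
        1 / 4 * (S0 + I ^ w * S1 + I ^ (2 * w) * S2 + I ^ (3 * w) * S3) := by
      rw [hS0, hS1, hS2, hS3]
      simp only [Finset.mul_sum]
      rw [← Finset.sum_add_distrib, ← Finset.sum_add_distrib, ← Finset.sum_add_distrib,
        Finset.mul_sum]
      refine Finset.sum_congr rfl fun q _ => ?_
      ring
    rw [e5]
    have f1 : I ^ w * S1 = S0 := k1.symm
    have f2 : I ^ (2 * w) * S2 = S0 := by
      rw [k1, k2]
      ring
    have f3 : I ^ (3 * w) * S3 = S0 := by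
      rw [k1, k2, k3]
      ring
    rw [f1, f2, f3]
    ring
  have hlim : ∀ q : RQ D, Tendsto (fun δ : ℝ => F q.out * (1 / 4 * (GE Ω k δ (zq Ω D q.out) +
      I ^ w * GE Ω k δ (I * zq Ω D q.out) + I ^ (2 * w) * GE Ω k δ (-zq Ω D q.out) +
      I ^ (3 * w) * GE Ω k δ (-(I * zq Ω D q.out))))) (𝓝[>] 0)
      (𝓝 (F q.out * (c * gX L (℘[L] (Ω / 2)) κ ε w (zq Ω D q.out)))) := by
    intro q
    by_cases hq : D ∣ q.out
    · rw [hz _ hq, zero_mul]
      simp only [zero_mul]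
      exact tendsto_const_nhds
    · exact (hK.lim _ (zq_OT h hD hq)).const_mul _
  have hsum := tendsto_finsetSum (Finset.univ : Finset (RQ D)) fun q _ => hlim q
  have e6 : ∑ q : RQ D, F q.out * (c * gX L (℘[L] (Ω / 2)) κ ε w (zq Ω D q.out)) =
      c * ∑ q : RQ D, F q.out * gX L (℘[L] (Ω / 2)) κ ε w (zq Ω D q.out) := by
    rw [Finset.mul_sum]
    exact Finset.sum_congr rfl fun q _ => by ring
  rw [← e6]
  refine hsum.congr fun δ => ?_
  exact (havg (fun z => GE Ω k δ z) (fun x y hxy => GE_per h k δ hxy)).symm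

end Pool.Agent.L7h73.QX
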