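import Pool.Agent.Y699.Ff

/-!
# Project QX (helper3), PAR and DTX: determinants over the field with two elements (helper73)
-/

set_option autoImplicit false
set_option linter.unusedSectionVars false

namespace Pool.Agent.L7h73.QX

open Finset
open Pool.Agent.Y699.Ff

section

variable {ι : Type*} [Fintype ι] [DecidableEq ι]

/-! ### Independence of the root -/

theorem MM_symm {e : ι → ι → ZMod 2} (hs : ∀ u v, e u v = e v u) (S : Finset ι) :
    (MM 0 e S S).transpose = MM 0 e S S := by
  ext u v
  rw [Matrix.transpose_apply]
  unfold MM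
  by_cases huv : u = v
  · subst huv
    rfl
  · have hvu : v ≠ u := fun h => huv h.symm
    simp only [if_neg huv, if_neg hvu]
    by_cases hu : u ∈ S <;> by_cases hv : v ∈ S <;> simp [hu, hv, hs u v]

theorem MM_ker {e : ι → ι → ZMod 2} (he : ∀ v, e v v = 0) (hs : ∀ u v, e u v = e v u)
    (S : Finset ι) (u : ι) : ∑ v ∈ S, MM 0 e S S u v = 0 := by
  have h1 : ∀ v ∈ S, MM 0 e S S u v = (if u = v then ∑ w ∈ S, e w u else 0) +
      (if u ∈ S then e u v else 0) := by
    intro v hv
    unfold MM dg
    rw [if_pos hv]
    by_cases huv : u = v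
    · subst huv
      simp [he, hv]
    · simp [huv]
  rw [sum_congr rfl h1, sum_add_distrib, sum_ite_eq]
  by_cases hu : u ∈ S
  · simp only [if_pos hu]
    have : ∑ v ∈ S, e u v = ∑ w ∈ S, e w u := sum_congr rfl fun v _ => hs u v
    rw [this]
    exact CharTwo.add_self_eq_zero _
  · simp [hu]

theorem cof_eq {e : ι → ι → ZMod 2} (he : ∀ v, e v v = 0) (hs : ∀ u v, e u v = e v u)
    {S : Finset ι} (i : ι) {j j' : ι} (hj : j ∈ S) (hj' : j' ∈ S) :
    ((MM 0 e S S).updateRow i (Pi.single j 1)).det =
      ((MM 0 e S S).updateRow i (Pi.single j' 1)).det := by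
  have h1 : ((MM 0 e S S).updateRow i (Pi.single j 1 + Pi.single j' 1)).det = 0 := by
    rw [← Matrix.exists_mulVec_eq_zero_iff]
    refine ⟨fun v => if v ∈ S then 1 else 0, ?_, ?_⟩
    · intro h
      have := congrFun h j
      simp [hj] at this
    · funext u
      rw [Matrix.mulVec, dotProduct, Pi.zero_apply]
      simp only [mul_ite, mul_one, mul_zero]
      rw [sum_ite_mem, univ_inter]
      by_cases hu : u = i
      · subst hu
        simp only [Matrix.updateRow_self, Pi.add_apply, Pi.single_apply]
        rw [sum_add_distrib, sum_ite_eq', sum_ite_eq', if_pos hj, if_pos hj']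
        decide
      · rw [← MM_ker he hs S u]
        refine sum_congr rfl fun v _ => ?_
        rw [Matrix.updateRow_ne hu]
  rw [Matrix.det_updateRow_add] at h1
  have h2 : ∀ a b : ZMod 2, a + b = 0 → a = b := by decide
  exact h2 _ _ h1

theorem tau_cof {e : ι → ι → ZMod 2} {S : Finset ι} {r : ι}
    (hr : r ∈ S) : tau e r S = ((MM 0 e S S).updateRow r (Pi.single r 1)).det := by
  unfold tau
  symm
  refine Matrix.det_eq_of_forall_row_eq_smul_add_const
    (fun i => if i = r then 0 else if i ∈ S then e i r else 0) r (if_pos rfl) ?_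
  intro i j
  have hrow : ∀ j, MM (e r) e (S.erase r) (S.erase r) r j = if j = r then 1 else 0 := by
    intro j
    unfold MM
    by_cases hj : j = r
    · subst hj
      simp
    · have hj' : r ≠ j := fun h => hj h.symm
      simp [hj, hj']
  rw [hrow]
  by_cases hi : i = r
  · subst hi
    rw [Matrix.updateRow_self, hrow, if_pos rfl, zero_mul, add_zero, Pi.single_apply]
  · rw [Matrix.updateRow_ne hi, if_neg hi]
    by_cases hj : j = r
    · subst hj
      rw [if_pos rfl, mul_one]
      unfold MM
      simp [hr, hi]
    · rw [if_neg hj, mul_zero, add_zero]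
      unfold MM
      by_cases hjS : j ∈ S
      · have h1 : j ∈ S.erase r := mem_erase.2 ⟨hj, hjS⟩
        rw [if_pos hjS, if_pos h1]
        by_cases hij : i = j
        · subst hij
          rw [if_pos rfl, if_pos rfl]
          unfold dg
          rw [add_sum_erase S (fun u => e u i) hr]
          simp
        · rw [if_neg hij, if_neg hij]
          simp [hi]
      · have h1 : j ∉ S.erase r := fun h => hjS (mem_erase.1 h).2
        rw [if_neg hjS, if_neg h1]

/-- independence of the root -/
theorem tau_root {e : ι → ι → ZMod 2} (he : ∀ v, e v v = 0) (hs : ∀ u v, e u v = e v u)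
    {S : Finset ι} {r r' : ι} (hr : r ∈ S) (hr' : r' ∈ S) : tau e r S = tau e r' S := by
  rw [tau_cof hr, tau_cof hr', cof_eq he hs r hr hr']
  have h1 : (MM 0 e S S).adjugate.transpose = (MM 0 e S S).adjugate := by
    rw [Matrix.adjugate_transpose, MM_symm hs]
  have h2 := congrFun (congrFun h1 r) r'
  rw [Matrix.transpose_apply, Matrix.adjugate_apply, Matrix.adjugate_apply] at h2
  rw [← cof_eq he hs r' hr hr', h2]

/-! ### One more vertex -/

/-- the graph with one more vertex -/
def eh (x : ι → ZMod 2) (e : ι → ι → ZMod 2) : Option ι → Option ι → ZMod 2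
  | none, none => 0
  | none, some v => x v
  | some v, none => x v
  | some u, some v => e u v

theorem det_some {X : Option ι → ZMod 2} {E : Option ι → Option ι → ZMod 2} {x : ι → ZMod 2}
    {e : ι → ι → ZMod 2} (hX : ∀ v, X (some v) = x v) (hE : ∀ u v, E (some u) (some v) = e u v)
    (U J : Finset ι) : (MM X E (U.map Function.Embedding.some) (J.map Function.Embedding.some)).det =
      (MM x e U J).det := by
  rw [← Matrix.det_submatrix_equiv_self (Equiv.optionEquivSumPUnit.{0} ι).symm]
  have h : (MM X E (U.map Function.Embedding.some) (J.map Function.Embedding.some)).submatrix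
      (Equiv.optionEquivSumPUnit.{0} ι).symm (Equiv.optionEquivSumPUnit.{0} ι).symm =
      Matrix.fromBlocks (MM x e U J) 0 0 (1 : Matrix PUnit.{1} PUnit.{1} (ZMod 2)) := by
    ext i j
    rcases i with i | i <;> rcases j with j | j
    · simp only [Matrix.submatrix_apply, Equiv.optionEquivSumPUnit_symm_inl,
        Matrix.fromBlocks_apply₁₁]
      unfold MM dg
      simp [hX, hE]
    · simp only [Matrix.submatrix_apply, Equiv.optionEquivSumPUnit_symm_inl,
        Equiv.optionEquivSumPUnit_symm_inr, Matrix.fromBlocks_apply₁₂]
      unfold MM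
      simp
    · simp only [Matrix.submatrix_apply, Equiv.optionEquivSumPUnit_symm_inl,
        Equiv.optionEquivSumPUnit_symm_inr, Matrix.fromBlocks_apply₂₁]
      unfold MM
      simp
    · simp only [Matrix.submatrix_apply, Equiv.optionEquivSumPUnit_symm_inr,
        Matrix.fromBlocks_apply₂₂]
      unfold MM
      simp
  rw [h, Matrix.det_fromBlocks_zero₂₁, Matrix.det_one, mul_one]

theorem map_erase_some (O : Finset ι) (r : ι) :
    (O.map Function.Embedding.some).erase (some r) = (O.erase r).map Function.Embedding.some := by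
  ext v
  rcases v with _ | v <;> simp

theorem sum_par (x : ι → ZMod 2) (e : ι → ι → ZMod 2) (he : ∀ v, e v v = 0)
    (hs : ∀ u v, e u v = e v u) {V : Finset ι} {r : ι} (hr : r ∈ V) :
    ∑ O ∈ V.powerset, (if r ∈ O then (MM x e V O).det else 0) =
      ∑ O ∈ V.powerset, (if r ∈ O then tau e r O * (∏ v ∈ V \ O, ∑ u ∈ O, e u v) *
        ∑ u ∈ O, x u else 0) := by
  set E := eh x e with hE
  have hE0 : ∀ v, E v v = 0 := by
    intro v
    rcases v with _ | v
    · rfl
    · exact he v
  have hEs : ∀ u v, E u v = E v u := by
    intro u v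
    rcases u with _ | u <;> rcases v with _ | v
    · rfl
    · rfl
    · rfl
    · exact hs u v
  have hr' : some r ∈ insertNone V := by simp [hr]
  have hcard : 2 ≤ (insertNone V).card := by
    rw [card_insertNone]
    have := card_pos.2 ⟨r, hr⟩
    omega
  have h := sum_tau E hE0 hr' hcard
  rw [sum_filter] at h
  have hins : insertNone V = insert none (V.map Function.Embedding.some) := by
    ext v
    rcases v with _ | v <;> simp
  have hnn : (none : Option ι) ∉ V.map Function.Embedding.some := by simp
  rw [hins, sum_powerset_insert hnn] at h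
  have hmap : ∀ G : Finset (Option ι) → ZMod 2,
      ∑ T ∈ (V.map Function.Embedding.some).powerset, G T =
      ∑ O ∈ V.powerset, G (O.map Function.Embedding.some) := by
    intro G
    symm
    refine sum_bij' (fun O _ => O.map Function.Embedding.some) (fun T _ => eraseNone T)
      ?_ ?_ ?_ ?_ ?_
    · intro O hO
      rw [mem_powerset] at hO ⊢
      exact map_subset_map.2 hO
    · intro T hT
      rw [mem_powerset] at hT ⊢
      intro v hv
      rw [mem_eraseNone] at hv
      simpa using hT hv
    · intro O _
      simp
    · intro T hT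
      rw [mem_powerset] at hT
      rw [map_some_eraseNone, erase_eq_of_notMem]
      intro hn
      exact hnn (hT hn)
    · intro O _
      rfl
  rw [hmap, hmap] at h
  have h1 : ∀ O ∈ V.powerset, (if some r ∈ O.map Function.Embedding.some then
      tau E (some r) (O.map Function.Embedding.some) *
        ∏ v ∈ insert none (V.map Function.Embedding.some) \ O.map Function.Embedding.some,
          ∑ u ∈ O.map Function.Embedding.some, E u v else 0) =
      (if r ∈ O then tau e r O * (∏ v ∈ V \ O, ∑ u ∈ O, e u v) * ∑ u ∈ O, x u else 0) := by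
    intro O hO
    rw [mem_powerset] at hO
    have e0 : (some r ∈ O.map Function.Embedding.some) ↔ r ∈ O := by simp
    by_cases hrO : r ∈ O
    · rw [if_pos (e0.2 hrO), if_pos hrO]
      have e1 : tau E (some r) (O.map Function.Embedding.some) = tau e r O := by
        unfold tau
        rw [map_erase_some]
        exact det_some (fun v => rfl) (fun u v => rfl) _ _
      have e2 : insert none (V.map Function.Embedding.some) \ O.map Function.Embedding.some =
          insert none ((V \ O).map Function.Embedding.some) := by
        ext v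
        rcases v with _ | v <;> simp
      rw [e1, e2, prod_insert (by simp), prod_map]
      have e3 : ∑ u ∈ O.map Function.Embedding.some, E u none = ∑ u ∈ O, x u := by
        rw [sum_map]
        rfl
      have e4 : ∏ v ∈ V \ O, ∑ u ∈ O.map Function.Embedding.some,
          E u (Function.Embedding.some v) = ∏ v ∈ V \ O, ∑ u ∈ O, e u v := by
        refine prod_congr rfl fun v _ => ?_
        rw [sum_map]
        rfl
      rw [e3, e4]
      ring
    · rw [if_neg (fun h => hrO (e0.1 h)), if_neg hrO]
  have h2 : ∀ O ∈ V.powerset, (if some r ∈ insert none (O.map Function.Embedding.some) then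
      tau E (some r) (insert none (O.map Function.Embedding.some)) *
        ∏ v ∈ insert none (V.map Function.Embedding.some) \
            insert none (O.map Function.Embedding.some),
          ∑ u ∈ insert none (O.map Function.Embedding.some), E u v else 0) =
      (if r ∈ O then (MM x e V O).det else 0) := by
    intro O hO
    rw [mem_powerset] at hO
    have e0 : (some r ∈ insert none (O.map Function.Embedding.some)) ↔ r ∈ O := by simp
    by_cases hrO : r ∈ O
    · rw [if_pos (e0.2 hrO), if_pos hrO, det_MM x e hO]
      have hn : (none : Option ι) ∉ O.map Function.Embedding.some := by simp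
      have e1 : tau E (some r) (insert none (O.map Function.Embedding.some)) =
          (MM x e O O).det := by
        rw [tau_root hE0 hEs (e0.2 hrO) (mem_insert_self none _)]
        unfold tau
        rw [erase_insert hn]
        exact det_some (fun v => rfl) (fun u v => rfl) _ _
      have e2 : insert none (V.map Function.Embedding.some) \
          insert none (O.map Function.Embedding.some) =
          (V \ O).map Function.Embedding.some := by
        ext v
        rcases v with _ | v <;> simp
      rw [e1, e2, prod_map]
      congr 1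
      refine prod_congr rfl fun v _ => ?_
      rw [sum_insert hn, sum_map]
      rfl
    · rw [if_neg (fun h => hrO (e0.1 h)), if_neg hrO]
  rw [sum_congr rfl h1, sum_congr rfl h2] at h
  have h3 : ∀ a b : ZMod 2, a + b = 0 → b = a := by decide
  exact h3 _ _ h

end

theorem par (ι : Type) [Fintype ι] [DecidableEq ι] (x : ι → ZMod 2) (e : ι → ι → ZMod 2)
    (he : ∀ v, e v v = 0) (hs : ∀ u v, e u v = e v u) (V : Finset ι) (hV : 2 ≤ V.card)
    (c : ZMod 2) :
    ∑ O ∈ V.powerset.filter (fun O => ∑ i ∈ O, x i = c), (MM x e V O).det = 0 := by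
  classical
  have hVn : V.Nonempty := card_pos.1 (by omega)
  have h0 := sum_det x e he V hVn
  -- the weighted sum
  have h1 : ∑ O ∈ V.powerset, (∑ i ∈ O, x i) * (MM x e V O).det = 0 := by
    have k1 : ∀ F : Finset ι → ι → ZMod 2, ∑ O ∈ V.powerset, ∑ r ∈ O, F O r =
        ∑ r ∈ V, ∑ O ∈ V.powerset, if r ∈ O then F O r else 0 := by
      intro F
      rw [sum_comm]
      refine sum_congr rfl fun O hO => ?_
      rw [mem_powerset] at hO
      rw [← sum_filter]
      congr 1
      ext v
      rw [mem_filter]
      exact ⟨fun h => ⟨hO h, h⟩, fun h => h.2⟩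
    calc ∑ O ∈ V.powerset, (∑ i ∈ O, x i) * (MM x e V O).det =
        ∑ O ∈ V.powerset, ∑ r ∈ O, x r * (MM x e V O).det := by
          refine sum_congr rfl fun O _ => ?_
          rw [sum_mul]
      _ = ∑ r ∈ V, ∑ O ∈ V.powerset, if r ∈ O then x r * (MM x e V O).det else 0 :=
          k1 (fun O r => x r * (MM x e V O).det)
      _ = ∑ r ∈ V, ∑ O ∈ V.powerset, if r ∈ O then
            x r * (tau e r O * (∏ v ∈ V \ O, ∑ u ∈ O, e u v) * ∑ u ∈ O, x u) else 0 := by
          refine sum_congr rfl fun r hr => ?_
          have := congrArg (fun t => x r * t) (sum_par x e he hs hr)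
          simp only [mul_sum, mul_ite, mul_zero] at this
          simpa only [mul_sum] using this
      _ = ∑ O ∈ V.powerset, ∑ r ∈ O,
            x r * (tau e r O * (∏ v ∈ V \ O, ∑ u ∈ O, e u v) * ∑ u ∈ O, x u) :=
          (k1 (fun O r => x r * (tau e r O * (∏ v ∈ V \ O, ∑ u ∈ O, e u v) * ∑ u ∈ O, x u))).symm
      _ = ∑ O ∈ V.powerset, ell x e O * ∏ v ∈ V \ O, ∑ u ∈ O, e u v := by
          refine sum_congr rfl fun O _ => ?_
          rcases O.eq_empty_or_nonempty with hO | ⟨r0, hr0⟩
          · subst hO
            simp [ell]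
          · have k2 : ell x e O = tau e r0 O * ∑ r ∈ O, x r := by
              unfold ell
              rw [mul_sum]
              refine sum_congr rfl fun r hr => ?_
              rw [tau_root he hs hr hr0, mul_comm]
            have k3 : ∑ r ∈ O, x r * (tau e r O * (∏ v ∈ V \ O, ∑ u ∈ O, e u v) * ∑ u ∈ O, x u) =
                (∑ r ∈ O, x r) * (tau e r0 O * (∏ v ∈ V \ O, ∑ u ∈ O, e u v) * ∑ u ∈ O, x u) := by
              rw [sum_mul]
              refine sum_congr rfl fun r hr => ?_
              rw [tau_root he hs hr hr0]
            rw [k3, k2]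
            have k4 : ∀ a b c : ZMod 2, a * (b * c * a) = b * a * c := by decide
            exact k4 _ _ _
      _ = 0 := sum_ell x e he hV
  -- the two parts
  have h2 : ∑ O ∈ V.powerset, (∑ i ∈ O, x i) * (MM x e V O).det =
      ∑ O ∈ V.powerset.filter (fun O => ∑ i ∈ O, x i = 1), (MM x e V O).det := by
    rw [sum_filter]
    refine sum_congr rfl fun O _ => ?_
    have : ∀ a b : ZMod 2, a * b = if a = 1 then b else 0 := by decide
    exact this _ _
  have h3 : ∑ O ∈ V.powerset.filter (fun O => ∑ i ∈ O, x i = 0), (MM x e V O).det = 0 := by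
    have h4 := sum_filter_add_sum_filter_not V.powerset (fun O => ∑ i ∈ O, x i = 1)
      (fun O => (MM x e V O).det)
    rw [h0, ← h2, h1, zero_add] at h4
    have h5 : V.powerset.filter (fun O => ∑ i ∈ O, x i = 0) =
        V.powerset.filter (fun O => ¬ ∑ i ∈ O, x i = 1) := by
      ext O
      rw [mem_filter, mem_filter]
      have : ∀ a : ZMod 2, a = 0 ↔ ¬ a = 1 := by decide
      rw [this (∑ i ∈ O, x i)]
    rw [h5]
    exact h4
  have hc : c = 0 ∨ c = 1 := by
    revert c
    decide
  rcases hc with rfl | rfl
  · exact h3
  · rw [← h2]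
    exact h1

theorem dtx (ι : Type) [Fintype ι] [DecidableEq ι] (x : ι → ZMod 2) (e : ι → ι → ZMod 2)
    (he : ∀ v, e v v = 0) (V : Finset ι)
    (hV : ∀ z : ι → ZMod 2, (∀ v ∈ V, ∑ u ∈ V, e u v * (z u + z v) + x v * z v = 0) →
      ∀ v ∈ V, z v = 0) : (MM x e V V).det = 1 := by
  by_contra hne
  have h0 : (MM x e V V).det = 0 := by
    have : ∀ a : ZMod 2, a ≠ 1 → a = 0 := by decide
    exact this _ hne
  obtain ⟨y, hy0, hy⟩ := Matrix.exists_vecMul_eq_zero_iff.2 h0
  have h1 : ∀ v, v ∉ V → y v = 0 := by
    intro v hv
    have := congrFun hy v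
    rw [Matrix.vecMul, dotProduct] at this
    unfold MM at this
    simpa [hv] using this
  have h2 := hV y (fun v hv => by
    have h3 := congrFun hy v
    rw [Matrix.vecMul, dotProduct] at h3
    rw [Pi.zero_apply] at h3
    rw [← h3]
    have h4 : ∀ u, y u * MM x e V V u v =
        (if u ∈ V then e u v * y u else 0) +
          (if u = v then (x v + ∑ u ∈ V, e u v) * y v else 0) := by
      intro u
      unfold MM dg
      rw [if_pos hv]
      by_cases huv : u = v
      · subst huv
        rw [if_pos rfl, if_pos rfl, he]
        simp [mul_comm]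
      · rw [if_neg huv, if_neg huv]
        split_ifs <;> ring
    simp_rw [h4, mul_add]
    rw [Finset.sum_add_distrib, Finset.sum_add_distrib, Finset.sum_ite_eq', if_pos (mem_univ v),
      ← Finset.sum_mul, Finset.sum_ite_mem, Finset.univ_inter]
    ring)
  apply hy0
  funext v
  by_cases hv : v ∈ V
  · exact h2 v hv
  · exact h1 v hv

end Pool.Agent.L7h73.QX
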