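import Pool.Agent.L7h3.QX.Stm
import Pool.Agent.L7h73.QX.Par0

/-!
# Project QX (helper3), PAR and DTX (helper73)
-/

set_option autoImplicit false

namespace Pool.Agent.L7h73.QX

theorem t_PAR : Pool.Agent.L7h3.QX.S_PAR := by
  intro ι i1 i2 x e he hs V hV c
  have := par ι x e he hs V hV c
  convert this

theorem t_DTX : Pool.Agent.L7h3.QX.S_DTX := by
  intro ι i1 i2 x e he hs V hV
  exact dtx ι x e he V hV

end Pool.Agent.L7h73.QX
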